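import Pool.Agent.H61.CMC.TargetsE1
import Pool.Agent.H38.CM4B.KCB

/-! KBU: the bound of the kernel, uniform in `m`. -/

set_option autoImplicit false

open MeasureTheory Set Filter NumberField NumberField.InfinitePlace NumberField.Units
  NumberField.Units.dirichletUnitTheorem Pool.Agent.H65.CM4 Pool.Agent.H65.CMC Pool.Agent.H25.HK
  Pool.Agent.H61.CM4 Pool.Agent.H61.CMC
open scoped Real

namespace Pool.Agent.H39.CMC1

theorem ms_nonneg {k : Type} [Field k] [NumberField k] (m : Pl k → ℤ) : 0 ≤ ms m :=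
  Finset.sum_nonneg fun _ _ => abs_nonneg _

theorem cG_nonneg {k : Type} [Field k] [NumberField k] (m : Pl k → ℤ) (t : ℝ) : 0 ≤ cG m t :=
  Finset.prod_nonneg fun _ _ => norm_nonneg _

/-- the bound of the power -/
theorem cpow_le (r : ℂ) (h : r ≠ 0) (c τ : ℝ) :
    ‖r ^ (-(c + τ * Complex.I : ℂ))‖ ≤ ‖r‖ ^ (-c) * Real.exp (|r.arg| * |τ|) := by
  rw [Complex.norm_cpow_of_ne_zero h]
  have e1 : (-(c + τ * Complex.I : ℂ)).re = -c := by simp
  have e2 : (-(c + τ * Complex.I : ℂ)).im = -τ := by simp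
  rw [e1, e2, div_eq_mul_inv, ← Real.exp_neg]
  refine mul_le_mul_of_nonneg_left (Real.exp_le_exp.2 ?_) (Real.rpow_nonneg (norm_nonneg _) _)
  rw [← abs_mul]
  have : -(r.arg * -τ) = r.arg * τ := by ring
  rw [this]
  exact le_abs_self _

/-- the norm of the Gaussian factor -/
theorem gauss_eq (s : ℂ) (c τ : ℝ) : ‖Complex.exp ((c + τ * Complex.I - s) ^ 2)‖ =
    Real.exp ((c - s.re) ^ 2 - (τ - s.im) ^ 2) := by
  rw [Complex.norm_exp]
  congr 1
  have e : ((c : ℂ) + τ * Complex.I - s) ^ 2 =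
      (((c - s.re) ^ 2 - (τ - s.im) ^ 2 : ℝ) : ℂ) +
        ((2 * (c - s.re) * (τ - s.im) : ℝ) : ℂ) * Complex.I := by
    have h : s = (s.re : ℂ) + s.im * Complex.I := (Complex.re_add_im s).symm
    have h2 : (c : ℂ) + τ * Complex.I - s =
        ((c - s.re : ℝ) : ℂ) + ((τ - s.im : ℝ) : ℂ) * Complex.I := by
      conv_lhs => rw [h]
      push_cast
      ring
    rw [h2]
    push_cast
    have hI : Complex.I ^ 2 = -1 := Complex.I_sq
    linear_combination ((τ : ℂ) - s.im) ^ 2 * hI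
  rw [e, Complex.add_re, Complex.ofReal_re, Complex.re_ofReal_mul, Complex.I_re, mul_zero,
    add_zero]

/-- the bound on a line -/
theorem line {k : Type} [Field k] [NumberField k] (hGMA : T_GMA) (hKSG : T_KSG) (j : ℕ)
    (C0 κ R : ℝ) (hC0 : 0 ≤ C0) (hκ : 0 < κ) (m : Pl k → ℤ) (s r : ℂ) (c : ℝ)
    (hG : ∀ τ : ℝ, ‖GM m (c + τ * Complex.I)‖ ≤ C0 * (1 + |s.im| + ms m) ^ j *
        ((1 + |τ - s.im|) ^ j * Real.exp (π * Fintype.card (Pl k) * |τ - s.im| / 2)) *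
          cG m s.im)
    (hs : 0 ≤ s.re) (hs' : s.re ≤ 1) (hc : κ ≤ c - s.re) (hcR : c - s.re ≤ R)
    (hr : 0 < r.re) (ha : |r.arg| ≤ 1 / (10 * (1 + |s.im| + ms m))) :
    ‖Km m s r‖ ≤ (1 / (2 * π)) * (κ⁻¹ * (C0 * Real.exp (1 + R ^ 2) *
      ∫ x : ℝ, (1 + |x|) ^ j * Real.exp ((π * Fintype.card (Pl k) / 2 + 1) * |x|) *
        Real.exp (-(x - 0) ^ 2))) *
      ((1 + |s.im| + ms m) ^ j * cG m s.im * ‖r‖ ^ (-c)) := by
  have hc0 : 0 < c := by linarith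
  have hms := ms_nonneg m
  have hcG := cG_nonneg m s.im
  have ht := abs_nonneg s.im
  have hrs : r ∈ Complex.slitPlane := Complex.mem_slitPlane_iff.2 (Or.inl hr)
  have hr0 : r ≠ 0 := by rintro rfl; simp at hr
  obtain ⟨-, h1⟩ := hKSG (GM m) (hGMA k m) s r c (by linarith) (by linarith) (by linarith) hc0 hrs
  have hp := Real.pi_pos
  set n : ℝ := (Fintype.card (Pl k) : ℝ) with hn
  have hn0 : 0 ≤ n := Nat.cast_nonneg _
  have hI := Pool.Agent.H38.CM4B.intg j (π * n / 2 + 1) 0 (by positivity)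
  set T : ℝ := 1 + |s.im| + ms m with hT
  have hT1 : 1 ≤ T := by linarith
  have hrc : 0 ≤ ‖r‖ ^ (-c) := Real.rpow_nonneg (norm_nonneg _) _
  set K : ℝ := C0 * Real.exp (1 + R ^ 2) * (T ^ j * cG m s.im * ‖r‖ ^ (-c)) with hK
  have h2 : ∀ τ : ℝ, ‖GM m (c + τ * Complex.I) *
      (Complex.exp ((c + τ * Complex.I - s) ^ 2) / (c + τ * Complex.I - s)) *
        r ^ (-(c + τ * Complex.I))‖ ≤ κ⁻¹ * K * ((1 + |τ - s.im|) ^ j *
        Real.exp ((π * n / 2 + 1) * |τ - s.im|) * Real.exp (-(τ - s.im - 0) ^ 2)) := by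
    intro τ
    have hx := abs_nonneg (τ - s.im)
    have h4 : κ ≤ ‖(c + τ * Complex.I - s : ℂ)‖ := by
      refine hc.trans ?_
      have h := Complex.re_le_norm (c + τ * Complex.I - s)
      simpa using h
    have h5 : ‖(c + τ * Complex.I - s : ℂ)‖⁻¹ ≤ κ⁻¹ := inv_anti₀ hκ h4
    have h6 : |τ| ≤ |s.im| + |τ - s.im| := by
      have := abs_add_le s.im (τ - s.im)
      rwa [add_sub_cancel] at this
    have h7 : |r.arg| * |τ| ≤ 1 + |τ - s.im| := by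
      calc |r.arg| * |τ| ≤ 1 / (10 * T) * (T * (1 + |τ - s.im|)) :=
            mul_le_mul ha (by nlinarith) (abs_nonneg _) (by positivity)
        _ = (1 + |τ - s.im|) / 10 := by field_simp
        _ ≤ 1 + |τ - s.im| := by linarith
    have h8 : (c - s.re) ^ 2 ≤ R ^ 2 := pow_le_pow_left₀ (by linarith) hcR 2
    rw [norm_mul, norm_mul, norm_div, gauss_eq, sub_zero]
    have hc1 := cpow_le r hr0 c τ
    have hE : Real.exp (π * n * |τ - s.im| / 2) * (Real.exp ((c - s.re) ^ 2 - (τ - s.im) ^ 2)) *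
        Real.exp (|r.arg| * |τ|) ≤ Real.exp (1 + R ^ 2) *
          (Real.exp ((π * n / 2 + 1) * |τ - s.im|) * Real.exp (-(τ - s.im) ^ 2)) := by
      rw [← Real.exp_add, ← Real.exp_add, ← Real.exp_add, ← Real.exp_add]
      apply Real.exp_le_exp.2
      nlinarith
    have hGτ := hG τ
    calc ‖GM m (c + τ * Complex.I)‖ * (Real.exp ((c - s.re) ^ 2 - (τ - s.im) ^ 2) /
          ‖(c + τ * Complex.I - s : ℂ)‖) * ‖r ^ (-(c + τ * Complex.I : ℂ))‖ ≤
          (C0 * T ^ j * ((1 + |τ - s.im|) ^ j * Real.exp (π * n * |τ - s.im| / 2)) *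
            cG m s.im) * (Real.exp ((c - s.re) ^ 2 - (τ - s.im) ^ 2) * κ⁻¹) *
            (‖r‖ ^ (-c) * Real.exp (|r.arg| * |τ|)) := by
          rw [div_eq_mul_inv]
          refine mul_le_mul (mul_le_mul hGτ (mul_le_mul_of_nonneg_left h5 (Real.exp_pos _).le)
            (by positivity) (by positivity)) hc1 (norm_nonneg _) (by positivity)
      _ = κ⁻¹ * C0 * T ^ j * cG m s.im * ‖r‖ ^ (-c) * (1 + |τ - s.im|) ^ j *
            (Real.exp (π * n * |τ - s.im| / 2) * (Real.exp ((c - s.re) ^ 2 - (τ - s.im) ^ 2)) *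
              Real.exp (|r.arg| * |τ|)) := by ring
      _ ≤ κ⁻¹ * C0 * T ^ j * cG m s.im * ‖r‖ ^ (-c) * (1 + |τ - s.im|) ^ j *
            (Real.exp (1 + R ^ 2) *
          (Real.exp ((π * n / 2 + 1) * |τ - s.im|) * Real.exp (-(τ - s.im) ^ 2))) :=
          mul_le_mul_of_nonneg_left hE (by positivity)
      _ = _ := by rw [hK]; ring
  have hI2 : Integrable (fun τ : ℝ => κ⁻¹ * K * ((1 + |τ - s.im|) ^ j *
        Real.exp ((π * n / 2 + 1) * |τ - s.im|) * Real.exp (-(τ - s.im - 0) ^ 2))) :=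
    (hI.comp_sub_right s.im).const_mul _
  have h5 := norm_integral_le_of_norm_le hI2 (ae_of_all _ h2)
  have e0 : Km m s r = KG (GM m) s r := rfl
  rw [e0, h1, norm_mul, Complex.norm_real, Real.norm_of_nonneg (by positivity)]
  refine (mul_le_mul_of_nonneg_left h5 (by positivity)).trans (le_of_eq ?_)
  rw [integral_const_mul, integral_sub_right_eq_self (fun x : ℝ => (1 + |x|) ^ j *
    Real.exp ((π * n / 2 + 1) * |x|) * Real.exp (-(x - 0) ^ 2)) s.im, hK]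
  ring

theorem pf_KBU (hGMA : T_GMA) (hKSG : T_KSG) (hGMU : T_GMU) : T_KBU := by
  intro k _ _ B κ hκ hκ8
  obtain ⟨C0, j, hC0, hC⟩ := hGMU k (2 + B)
  have hp := Real.pi_pos
  set A : ℝ := (1 / (2 * π)) * (κ⁻¹ * (C0 * Real.exp (1 + (2 + (B : ℝ)) ^ 2) *
      ∫ x : ℝ, (1 + |x|) ^ j * Real.exp ((π * Fintype.card (Pl k) / 2 + 1) * |x|) *
        Real.exp (-(x - 0) ^ 2))) with hA
  have hint : 0 ≤ ∫ x : ℝ, (1 + |x|) ^ j * Real.exp ((π * Fintype.card (Pl k) / 2 + 1) * |x|) *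
      Real.exp (-(x - 0) ^ 2) := integral_nonneg fun x => by positivity
  have hA0 : 0 ≤ A := by positivity
  refine ⟨2 ^ B * A, j, by positivity, ?_⟩
  intro m s r hs hr hi
  have hs' := abs_le.1 hs
  have hms := ms_nonneg m
  have hcG := cG_nonneg m s.im
  have ht := abs_nonneg s.im
  have ha : |r.arg| ≤ 1 / (10 * (1 + |s.im| + ms m)) := by
    refine (Pool.Agent.H38.CM4B.arg_le r hr).trans ?_
    rw [div_le_iff₀ hr]
    refine hi.trans (le_of_eq ?_)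
    rw [div_mul_eq_mul_div, one_mul]
  have hn : 0 < ‖r‖ := norm_pos_iff.2 (by rintro rfl; simp at hr)
  have hB0 : (0 : ℝ) ≤ B := Nat.cast_nonneg B
  have e0 : (1 + ‖r‖) ^ (-(B : ℝ)) = ((1 + ‖r‖) ^ B)⁻¹ := by
    rw [Real.rpow_neg (by positivity), Real.rpow_natCast]
  have key : ∀ c : ℝ, κ ≤ c - s.re → 1 / 4 ≤ c → c ≤ 2 + B →
      ‖r‖ ^ (-c) ≤ 2 ^ B * (‖r‖ ^ (-(1 / 2 + 2 * κ)) * (1 + ‖r‖) ^ (-(B : ℝ))) →
      ‖Km m s r‖ ≤ 2 ^ B * A * (1 + |s.im| + ms m) ^ j * cG m s.im *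
        (‖r‖ ^ (-(1 / 2 + 2 * κ)) * (1 + ‖r‖) ^ (-(B : ℝ))) := by
    intro c h1 h1' h2 h3
    refine (line hGMA hKSG j C0 κ (2 + B) hC0.le hκ m s r c (fun τ => hC m c s.im τ h1' h2)
      (by linarith [hs'.1]) (by linarith [hs'.2]) h1 (by linarith [hs'.1]) hr ha).trans ?_
    rw [← hA]
    calc A * ((1 + |s.im| + ms m) ^ j * cG m s.im * ‖r‖ ^ (-c)) ≤
          A * ((1 + |s.im| + ms m) ^ j * cG m s.im *
            (2 ^ B * (‖r‖ ^ (-(1 / 2 + 2 * κ)) * (1 + ‖r‖) ^ (-(B : ℝ))))) :=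
          mul_le_mul_of_nonneg_left (mul_le_mul_of_nonneg_left h3 (by positivity)) hA0
      _ = _ := by ring
  rcases le_or_gt ‖r‖ 1 with h1 | h1
  · refine key (1 / 2 + 2 * κ) (by linarith [hs'.2]) (by linarith) (by linarith) ?_
    have h2 : (1 + ‖r‖) ^ B ≤ 2 ^ B := pow_le_pow_left₀ (by positivity) (by linarith) B
    have h3 : 1 ≤ 2 ^ B * ((1 + ‖r‖) ^ B)⁻¹ := by
      rw [← div_eq_mul_inv, one_le_div (by positivity)]
      exact h2
    rw [e0]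
    have h4 : 0 ≤ ‖r‖ ^ (-(1 / 2 + 2 * κ)) := Real.rpow_nonneg hn.le _
    nlinarith
  · refine key (1 + B) (by linarith [hs'.2]) (by linarith) (by linarith) ?_
    have e1 : ‖r‖ ^ (-(1 + (B : ℝ))) = ‖r‖ ^ (-(1 : ℝ)) * (‖r‖ ^ B)⁻¹ := by
      rw [neg_add, Real.rpow_add hn, Real.rpow_neg hn.le (B : ℝ), Real.rpow_natCast]
    have h2 : ‖r‖ ^ (-(1 : ℝ)) ≤ ‖r‖ ^ (-(1 / 2 + 2 * κ)) :=
      Real.rpow_le_rpow_of_exponent_le h1.le (by linarith)
    have h3 : (‖r‖ ^ B)⁻¹ ≤ 2 ^ B * ((1 + ‖r‖) ^ B)⁻¹ := by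
      have h5 : (1 + ‖r‖) ^ B ≤ 2 ^ B * ‖r‖ ^ B := by
        rw [← mul_pow]
        exact pow_le_pow_left₀ (by positivity) (by linarith) B
      rw [← div_eq_mul_inv, inv_eq_one_div, div_le_div_iff₀ (by positivity) (by positivity),
        one_mul]
      exact h5
    rw [e1, e0]
    calc ‖r‖ ^ (-(1 : ℝ)) * (‖r‖ ^ B)⁻¹ ≤ ‖r‖ ^ (-(1 / 2 + 2 * κ)) *
          (2 ^ B * ((1 + ‖r‖) ^ B)⁻¹) :=
          mul_le_mul h2 h3 (by positivity) (Real.rpow_nonneg hn.le _)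
      _ = _ := by ring

end Pool.Agent.H39.CMC1
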